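import Pool.Agent.K1H53.BI.Plan2

/-! # Project BI (MP_1354f0_pr), piece INVF -/

set_option autoImplicit false

open scoped ENNReal
open Finset
open Pool.Agent.K1H53.BI

namespace Pool.Agent.K1H80.BI

/-- the moving particles are in the aggregate -/
def Inn (s : St) : Prop := ∀ x ∈ s.L, x ∈ s.A

theorem put_sub (s : St) (y : V) : s.A ⊆ (put s y).A := by
  unfold put
  split_ifs
  · exact Finset.Subset.refl _
  · exact Finset.subset_insert _ _

theorem put_inn (s : St) (y : V) (h : Inn s) : Inn (put s y) := by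
  unfold put
  split_ifs with h1
  · intro x hx
    rcases List.mem_cons.1 hx with rfl | hx
    · exact h1
    · exact h x hx
  · intro x hx
    exact Finset.mem_insert_of_mem (h x hx)

theorem children_sub (x : V) (k : ℕ) : ∀ (s s' : St), s' ∈ (children x k s).support → s.A ⊆ s'.A := by
  induction k with
  | zero =>
    intro s s' h
    simp only [children, PMF.mem_support_pure_iff] at h
    rw [h]
  | succ k ih =>
    intro s s' h
    simp only [children, PMF.mem_support_bind_iff] at h
    obtain ⟨e, -, h2⟩ := h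
    exact (put_sub s _).trans (ih _ _ h2)

theorem children_inn (x : V) (k : ℕ) : ∀ (s s' : St), Inn s → s' ∈ (children x k s).support → Inn s' := by
  induction k with
  | zero =>
    intro s s' hs h
    simp only [children, PMF.mem_support_pure_iff] at h
    rw [h]
    exact hs
  | succ k ih =>
    intro s s' hs h
    simp only [children, PMF.mem_support_bind_iff] at h
    obtain ⟨e, -, h2⟩ := h
    exact ih _ _ (put_inn s _ hs) h2

theorem step_sub (ν : PMF ℕ) (s s' : St) (h : (step ν s) s' ≠ 0) : s.A ⊆ s'.A := by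
  rw [← PMF.mem_support_iff] at h
  unfold step at h
  split_ifs at h with h1 h2
  · rw [PMF.mem_support_pure_iff] at h
    rw [h]
  · rw [PMF.mem_support_pure_iff] at h
    rw [h]
  · simp only [PMF.mem_support_bind_iff] at h
    obtain ⟨i, -, k, -, h3⟩ := h
    exact children_sub _ _ ⟨s.A, s.L.eraseIdx i, s.m⟩ _ h3

theorem run_step_sub (ν : PMF ℕ) (s : St) (n : ℕ) : ∀ s' : St, run (step ν) s n s' ≠ 0 → s.A ⊆ s'.A := by
  induction n with
  | zero =>
    intro s' h
    rw [← PMF.mem_support_iff] at h
    simp only [run, PMF.mem_support_pure_iff] at h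
    rw [h]
  | succ n ih =>
    intro s' h
    rw [← PMF.mem_support_iff] at h
    simp only [run, PMF.mem_support_bind_iff] at h
    obtain ⟨s1, h1, h2⟩ := h
    exact (ih s1 ((PMF.mem_support_iff _ _).1 h1)).trans (step_sub ν s1 s' ((PMF.mem_support_iff _ _).1 h2))

theorem stepF_inv (ν : PMF ℕ) (R : ℕ) (s s' : St) (h0 : (0 : V) ∈ s.A) (hs : Inn s)
    (h : s' ∈ (stepF ν R s).support) : s.A ⊆ s'.A ∧ Inn s' := by
  unfold stepF at h
  split_ifs at h with h1 h2
  · unfold top at h
    simp only [PMF.mem_support_bind_iff] at h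
    obtain ⟨k, -, h3⟩ := h
    refine ⟨children_sub _ _ ⟨s.A, s.L.erase (sel R s), s.m⟩ _ h3, children_inn _ _ ⟨s.A, s.L.erase (sel R s), s.m⟩ _ ?_ h3⟩
    intro x hx
    exact hs x (List.mem_of_mem_erase hx)
  · rw [PMF.mem_support_pure_iff] at h
    rw [h]
    exact ⟨Finset.Subset.refl _, hs⟩
  · rw [PMF.mem_support_pure_iff] at h
    rw [h]
    refine ⟨Finset.Subset.refl _, ?_⟩
    intro x hx
    rcases List.mem_cons.1 hx with rfl | hx
    · exact h0
    · exact hs x hx

theorem step_fin (ν : PMF ℕ) (s : St) (h : Fin' s) : step ν s = PMF.pure s := by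
  unfold step
  rw [dif_pos h.1, if_pos h.2]

theorem mono_run (ν : PMF ℕ) (G : Finset V → Prop) (s : St) :
    Monotone fun n => Ex (run (step ν) s n) (ind fun s => Fin' s ∧ G s.A) := by
  refine monotone_nat_of_le_succ fun n => ?_
  rw [run, Ex_bind]
  refine Ex_mono _ fun s _ => ?_
  by_cases hs : Fin' s
  · rw [step_fin ν s hs, Ex_pure]
  · simp [ind, hs]

/-- **Piece INVF.** -/
theorem t_INVF : S_INVF := by
  refine ⟨?_, ?_, ?_, ?_⟩
  · intro ν R n s₀ s hL h0
    revert s
    induction n with
    | zero =>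
      intro s h
      rw [← PMF.mem_support_iff] at h
      simp only [run, PMF.mem_support_pure_iff] at h
      rw [h]
      refine ⟨Finset.Subset.refl _, ?_⟩
      rw [hL]
      simp
    | succ n ih =>
      intro s h
      rw [← PMF.mem_support_iff] at h
      simp only [run, PMF.mem_support_bind_iff] at h
      obtain ⟨s1, h1, h2⟩ := h
      obtain ⟨h3, h4⟩ := ih s1 ((PMF.mem_support_iff _ _).1 h1)
      obtain ⟨h5, h6⟩ := stepF_inv ν R s1 s (h3 h0) h4 h2
      exact ⟨h3.trans h5, h6⟩
  · intro ν G s hG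
    unfold Phi
    refine iSup_congr fun n => ?_
    refine Ex_congr _ fun s' hs' => ?_
    have h1 := hG s'.A (run_step_sub ν s n s' hs')
    unfold ind
    by_cases h2 : Fin' s' <;> simp [h1, h2]
  · intro ν G G' s h
    unfold Phi
    refine iSup_mono fun n => ?_
    refine Ex_mono _ fun s' _ => ?_
    unfold ind
    by_cases h1 : Fin' s' ∧ G s'.A
    · rw [if_pos h1, if_pos ⟨h1.1, h _ h1.2⟩]
    · rw [if_neg h1]
      exact zero_le
  · intro ν G s
    unfold Phi
    rw [ENNReal.iSup_add_iSup_of_monotone (mono_run ν G s) (mono_run ν (fun A => ¬ G A) s)]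
    refine iSup_congr fun n => ?_
    rw [← Ex_add]
    refine Ex_congr _ fun s' _ => ?_
    unfold ind
    by_cases h1 : Fin' s' <;> by_cases h2 : G s'.A <;> simp [h1, h2]

end Pool.Agent.K1H80.BI

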