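import Pool.Agent.K1H53.BI.Plan4
import Pool.Agent.K1H53.BI.Fin0

/-! # Project BI (MP_1354f0_pr), piece IO -/

set_option autoImplicit false

open scoped ENNReal
open Finset MeasureTheory Filter
open Pool.Agent.K1H53.BI

namespace Pool.Agent.K1H80.BI

theorem Phi_le_one (ν : PMF ℕ) (G : Finset V → Prop) (s : St) : Phi ν G s ≤ 1 :=
  iSup_le fun n => ind_le_one _ _

theorem tr_sub (hI : S_INVF) (ν : PMF ℕ) (A B : Finset V) (h : tr ν A B ≠ 0) : A ⊆ B := by
  by_contra hAB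
  obtain ⟨-, h2, h3, h4⟩ := hI
  have e1 := h2 ν (fun C => A ⊆ C) ⟨A, [], 1⟩ (fun C hC => hC)
  have e2 := h4 ν (fun C => A ⊆ C) ⟨A, [], 1⟩
  rw [e1] at e2
  have hfin : Phi ν (fun _ => True) ⟨A, [], 1⟩ ≠ ⊤ :=
    ne_top_of_le_ne_top ENNReal.one_ne_top (Phi_le_one _ _ _)
  have e3 : Phi ν (fun C => ¬ A ⊆ C) ⟨A, [], 1⟩ = 0 := by
    by_contra h5
    exact absurd e2 (ENNReal.lt_add_right hfin h5).ne'
  have e4 := h3 ν (fun C => C = B) (fun C => ¬ A ⊆ C) ⟨A, [], 1⟩ (fun C hC => hC ▸ hAB)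
  exact h (le_antisymm (e4.trans e3.le) zero_le)

section proc

variable {ν : PMF ℕ} {Ω : Type} {mΩ : MeasurableSpace Ω} {P : Measure Ω} {X : ℕ → Ω → Finset V}

/-- cylinder -/
def Cyl (X : ℕ → Ω → Finset V) (t : ℕ) (a : ℕ → Finset V) : Set Ω :=
  {ω | ∀ i, 1 ≤ i → i ≤ t → X i ω = a i}

theorem zero_mem (hI : S_INVF) (hX : IsBIDLA ν P X) (a : ℕ → Finset V) (t : ℕ) (ht : 1 ≤ t) :
    P (Cyl X t a) ≠ 0 → (0 : V) ∈ a t := by
  induction t, ht using Nat.le_induction with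
  | base =>
    intro h
    by_contra h0
    have h2 : Cyl X 1 a ⊆ {ω | X 1 ω = {0}}ᶜ := by
      intro ω hω h1
      have h2 := hω 1 le_rfl le_rfl
      have h1' : X 1 ω = {0} := h1
      rw [h1'] at h2
      exact h0 (h2 ▸ Finset.mem_singleton_self _)
    have h3 : P ({ω | X 1 ω = {0}}ᶜ) = 0 := by
      have := hX.prob
      rw [prob_compl_eq_zero_iff (hX.meas 1 {0})]
      exact hX.start
    exact h (measure_mono_null h2 h3)
  | succ t ht ih =>
    intro h
    have h' := hX.markov t a ht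
    have h1 : P (Cyl X (t + 1) a) = P (Cyl X t a) * tr ν (a t) (a (t + 1)) := h'
    rw [h1] at h
    exact tr_sub hI ν _ _ (right_ne_zero_of_mul h) (ih (left_ne_zero_of_mul h))

theorem Cyl_meas (hX : IsBIDLA ν P X) (t : ℕ) (a : ℕ → Finset V) : MeasurableSet (Cyl X t a) := by
  have : Cyl X t a = ⋂ i, ⋂ (_ : 1 ≤ i), ⋂ (_ : i ≤ t), {ω | X i ω = a i} := by
    ext ω
    simp [Cyl]
  rw [this]
  exact MeasurableSet.iInter fun i => MeasurableSet.iInter fun _ => MeasurableSet.iInter fun _ =>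
    hX.meas i _

theorem ev_meas (hX : IsBIDLA ν P X) (t : ℕ) (G : Finset V → Prop) : MeasurableSet {ω | G (X t ω)} := by
  have : {ω | G (X t ω)} = ⋃ B ∈ {B : Finset V | G B}, {ω | X t ω = B} := by
    ext ω
    simp
  rw [this]
  exact MeasurableSet.biUnion (Set.to_countable _) fun B _ => hX.meas t B

/-- sequence from a finite sequence -/
def extd (t : ℕ) (b : Fin t → Finset V) : ℕ → Finset V := fun i => if h : i - 1 < t then b ⟨i - 1, h⟩ else ∅

theorem decomp (hX : IsBIDLA ν P X) (t : ℕ) (S : Set Ω) (hS : MeasurableSet S) :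
    P S = ∑' b : Fin t → Finset V, P (S ∩ Cyl X t (extd t b)) := by
  have h1 : S = ⋃ b : Fin t → Finset V, S ∩ Cyl X t (extd t b) := by
    ext ω
    rw [Set.mem_iUnion]
    constructor
    · intro h
      refine ⟨fun j => X (j + 1) ω, h, ?_⟩
      intro i hi hit
      unfold extd
      rw [dif_pos (by omega)]
      simp only []
      congr 1
      omega
    · rintro ⟨b, h, -⟩
      exact h
  conv_lhs => rw [h1]
  refine measure_iUnion ?_ (fun b => hS.inter (Cyl_meas hX t _))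
  intro b b' hbb
  refine Set.disjoint_left.2 ?_
  rintro ω ⟨-, h2⟩ ⟨-, h3⟩
  apply hbb
  funext j
  have e2 := h2 (j + 1) (by omega) (by omega)
  have e3 := h3 (j + 1) (by omega) (by omega)
  rw [e2] at e3
  unfold extd at e3
  simpa using e3

theorem step_le (hC : C_CYL) (hI : S_INVF) (hX : IsBIDLA ν P X) (Gd : ℕ → Finset V → Prop) (c : ℝ≥0∞)
    (t : ℕ) (ht : 1 ≤ t) (τ : Finset V → ℕ)
    (hτ : ∀ A, (0 : V) ∈ A → ∀ T, τ A ≤ T → Phi ν (fun _ => True) ⟨A, [], T - t⟩ = 1 →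
      c ≤ Phi ν (Gd T) ⟨A, [], T - t⟩)
    (Q : (ℕ → Finset V) → Prop) (hQ : ∀ a a', (∀ i, 1 ≤ i → i ≤ t → a i = a' i) → Q a → Q a')
    (hQm : MeasurableSet {ω | Q (fun i => X i ω)}) (T : ℕ) (hT : t ≤ T) :
    c * P {ω | Q (fun i => X i ω) ∧ τ (X t ω) ≤ T} ≤
      P {ω | (Q (fun i => X i ω) ∧ τ (X t ω) ≤ T) ∧ Gd T (X T ω)} := by
  have := hX.prob
  have hm1 : MeasurableSet {ω | Q (fun i => X i ω) ∧ τ (X t ω) ≤ T} :=
    hQm.inter (ev_meas hX t fun A => τ A ≤ T)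
  have hm2 : MeasurableSet {ω | (Q (fun i => X i ω) ∧ τ (X t ω) ≤ T) ∧ Gd T (X T ω)} :=
    hm1.inter (ev_meas hX T (Gd T))
  rw [decomp hX t _ hm1, decomp hX t _ hm2, ← ENNReal.tsum_mul_left]
  refine ENNReal.tsum_le_tsum fun b => ?_
  set a := extd t b with ha
  by_cases h0 : P (Cyl X t a) = 0
  · rw [measure_mono_null Set.inter_subset_right h0, mul_zero]
    exact zero_le
  by_cases h1 : Q a ∧ τ (a t) ≤ T
  · have e1 : P ({ω | Q (fun i => X i ω) ∧ τ (X t ω) ≤ T} ∩ Cyl X t a) ≤ P (Cyl X t a) :=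
      measure_mono Set.inter_subset_right
    have e2 : P {ω | (∀ i, 1 ≤ i → i ≤ t → X i ω = a i) ∧ Gd T (X T ω)} =
        P (Cyl X t a) * Phi ν (Gd T) ⟨a t, [], T - t⟩ := hC ν Ω mΩ P X hX t T a (Gd T) ht hT
    have e3 : P {ω | (∀ i, 1 ≤ i → i ≤ t → X i ω = a i) ∧ True} =
        P (Cyl X t a) * Phi ν (fun _ => True) ⟨a t, [], T - t⟩ :=
      hC ν Ω mΩ P X hX t T a (fun _ => True) ht hT
    have e4 : P (Cyl X t a) = P (Cyl X t a) * Phi ν (fun _ => True) ⟨a t, [], T - t⟩ := by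
      rw [← e3]
      congr 1
      ext ω
      simp [Cyl]
    have hfin : P (Cyl X t a) ≠ ⊤ := measure_ne_top P _
    have e5 : Phi ν (fun _ => True) ⟨a t, [], T - t⟩ = 1 := by
      have : P (Cyl X t a) * Phi ν (fun _ => True) ⟨a t, [], T - t⟩ = P (Cyl X t a) * 1 := by
        rw [mul_one]; exact e4.symm
      exact (ENNReal.mul_right_inj h0 hfin).1 this
    have e6 := hτ (a t) (zero_mem hI hX a t ht h0) T h1.2 e5
    calc c * P ({ω | Q (fun i => X i ω) ∧ τ (X t ω) ≤ T} ∩ Cyl X t a) ≤ c * P (Cyl X t a) := by gcongr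
      _ = P (Cyl X t a) * c := mul_comm _ _
      _ ≤ P (Cyl X t a) * Phi ν (Gd T) ⟨a t, [], T - t⟩ := by gcongr
      _ = P {ω | (∀ i, 1 ≤ i → i ≤ t → X i ω = a i) ∧ Gd T (X T ω)} := e2.symm
      _ ≤ _ := by
        refine measure_mono ?_
        rintro ω ⟨h2, h3⟩
        refine ⟨⟨⟨?_, ?_⟩, h3⟩, h2⟩
        · exact hQ a _ (fun i hi hit => (h2 i hi hit).symm) h1.1
        · rw [h2 t ht le_rfl]
          exact h1.2
  · have e1 : {ω | Q (fun i => X i ω) ∧ τ (X t ω) ≤ T} ∩ Cyl X t a = ∅ := by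
      ext ω
      simp only [Set.mem_inter_iff, Set.mem_setOf_eq, Set.mem_empty_iff_false, iff_false]
      rintro ⟨⟨h2, h3⟩, h4⟩
      apply h1
      refine ⟨hQ _ a (fun i hi hit => h4 i hi hit) h2, ?_⟩
      rw [← h4 t ht le_rfl]
      exact h3
    rw [e1, measure_empty, mul_zero]
    exact zero_le

theorem io (hC : C_CYL) (hI : S_INVF) (hX : IsBIDLA ν P X) (Gd : ℕ → Finset V → Prop) (c : ℝ≥0∞)
    (hc : c ≠ 0)
    (h : ∀ (A : Finset V) (t : ℕ), (0 : V) ∈ A → ∃ T₁ : ℕ, ∀ T, T₁ ≤ T →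
      Phi ν (fun _ => True) ⟨A, [], T - t⟩ = 1 → c ≤ Phi ν (Gd T) ⟨A, [], T - t⟩) :
    ∀ᵐ ω ∂P, ∃ᶠ T in atTop, Gd T (X T ω) := by
  have := hX.prob
  have hN : ∀ k : ℕ, P {ω | ∀ i, k + 1 ≤ i → ¬ Gd i (X i ω)} = 0 := by
    intro k
    set N := {ω | ∀ i, k + 1 ≤ i → ¬ Gd i (X i ω)} with hNdef
    set F : ℕ → Set Ω := fun t => {ω | ∀ i, k + 1 ≤ i → i ≤ t → ¬ Gd i (X i ω)} with hF
    have hNm : MeasurableSet N := by
      have : N = ⋂ i, ⋂ (_ : k + 1 ≤ i), {ω | ¬ Gd i (X i ω)} := by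
        ext ω; simp [hNdef]
      rw [this]
      exact MeasurableSet.iInter fun i => MeasurableSet.iInter fun _ => ev_meas hX i fun A => ¬ Gd i A
    have hFm : ∀ t, MeasurableSet (F t) := by
      intro t
      have : F t = ⋂ i, ⋂ (_ : k + 1 ≤ i), ⋂ (_ : i ≤ t), {ω | ¬ Gd i (X i ω)} := by
        ext ω; simp [hF]
      rw [this]
      exact MeasurableSet.iInter fun i => MeasurableSet.iInter fun _ => MeasurableSet.iInter fun _ =>
        ev_meas hX i fun A => ¬ Gd i A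
    have hkey : ∀ t, 1 ≤ t → P N + c * P (F t) ≤ P (F t) := by
      intro t ht
      have hτ : ∀ A : Finset V, ∃ T₁ : ℕ, (0 : V) ∈ A → ∀ T, T₁ ≤ T →
          Phi ν (fun _ => True) ⟨A, [], T - t⟩ = 1 → c ≤ Phi ν (Gd T) ⟨A, [], T - t⟩ := by
        intro A
        by_cases h0 : (0 : V) ∈ A
        · obtain ⟨T₁, hT₁⟩ := h A t h0
          exact ⟨T₁, fun _ => hT₁⟩
        · exact ⟨0, fun h1 => absurd h1 h0⟩
      choose τ hτ using hτ
      set S : ℕ → Set Ω := fun T => {ω | (∀ i, k + 1 ≤ i → i ≤ t → ¬ Gd i (X i ω)) ∧ τ (X t ω) ≤ T} with hS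
      have hSmono : Monotone S := by
        intro T T' hTT ω hω
        exact ⟨hω.1, hω.2.trans hTT⟩
      have hSU : F t = ⋃ T, S T := by
        ext ω
        rw [Set.mem_iUnion]
        constructor
        · intro h1
          exact ⟨τ (X t ω), h1, le_rfl⟩
        · rintro ⟨T, h1, -⟩
          exact h1
      have h1 : ∀ T, t ≤ T → k + 1 ≤ T → P N + c * P (S T) ≤ P (F t) := by
        intro T hT hkT
        have h2 : c * P (S T) ≤ P {ω | ((∀ i, k + 1 ≤ i → i ≤ t → ¬ Gd i (X i ω)) ∧ τ (X t ω) ≤ T) ∧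
            Gd T (X T ω)} :=
          step_le hC hI hX Gd c t ht τ (fun A hA T hT => hτ A hA T hT)
            (fun a => ∀ i, k + 1 ≤ i → i ≤ t → ¬ Gd i (a i))
            (fun a a' haa hQ i hi hit => by rw [← haa i (by omega) hit]; exact hQ i hi hit)
            (hFm t) T hT
        calc P N + c * P (S T) ≤ P N + P {ω | ((∀ i, k + 1 ≤ i → i ≤ t → ¬ Gd i (X i ω)) ∧
              τ (X t ω) ≤ T) ∧ Gd T (X T ω)} := by gcongr
          _ = P (N ∪ {ω | ((∀ i, k + 1 ≤ i → i ≤ t → ¬ Gd i (X i ω)) ∧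
              τ (X t ω) ≤ T) ∧ Gd T (X T ω)}) := by
            rw [measure_union' _ hNm]
            refine Set.disjoint_left.2 ?_
            rintro ω h3 ⟨-, h4⟩
            exact h3 T hkT h4
          _ ≤ P (F t) := by
            refine measure_mono ?_
            rintro ω (h3 | h3)
            · exact fun i hi _ => h3 i hi
            · exact h3.1.1
      rw [hSU, hSmono.measure_iUnion, ENNReal.mul_iSup, ENNReal.add_iSup]
      refine iSup_le fun T => ?_
      have h2 := h1 (max T (max t (k + 1))) (by omega) (by omega)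
      rw [hSU, hSmono.measure_iUnion] at h2
      refine le_trans ?_ h2
      have h3 : S T ⊆ S (max T (max t (k + 1))) := hSmono (le_max_left _ _)
      gcongr
    have hlim : P N = ⨅ t, P (F t) := by
      have h1 : N = ⋂ t, F t := by
        ext ω
        rw [Set.mem_iInter]
        constructor
        · exact fun h1 t i hi _ => h1 i hi
        · exact fun h1 i hi => h1 i i hi le_rfl
      rw [h1]
      refine Antitone.measure_iInter ?_ (fun t => (hFm t).nullMeasurableSet) ⟨0, measure_ne_top P _⟩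
      intro t t' htt ω hω i hi hit
      exact hω i hi (hit.trans htt)
    have h2 : P N + c * P N ≤ P N := by
      conv_rhs => rw [hlim]
      refine le_iInf fun t => ?_
      have h3 : N ⊆ F (t + 1) := fun ω hω i hi _ => hω i hi
      have h4 : F (t + 1) ⊆ F t := fun ω hω i hi hit => hω i hi (by omega)
      calc P N + c * P N ≤ P N + c * P (F (t + 1)) := by gcongr
        _ ≤ P (F (t + 1)) := hkey (t + 1) (by omega)
        _ ≤ P (F t) := measure_mono h4
    have hfin : P N ≠ ⊤ := measure_ne_top P _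
    by_contra h5
    have h6 : c * P N ≠ 0 := mul_ne_zero hc h5
    exact absurd h2 (not_le.2 (ENNReal.lt_add_right hfin h6))
  rw [ae_iff]
  refine measure_mono_null (t := ⋃ k : ℕ, {ω | ∀ i, k + 1 ≤ i → ¬ Gd i (X i ω)}) ?_
    (measure_iUnion_null hN)
  intro ω hω
  rw [Set.mem_setOf_eq, Filter.not_frequently, eventually_atTop] at hω
  obtain ⟨k, hk⟩ := hω
  exact Set.mem_iUnion.2 ⟨k, fun i hi => hk i (by omega)⟩

end proc

/-- **Piece IO.** -/
theorem t_IO : S_IO := by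
  intro hF hC hI ν hν
  obtain ⟨c, hc, h⟩ := hF ν hν
  refine ⟨c, hc, ?_⟩
  intro Ω mΩ P X hX
  have hc0 : ENNReal.ofReal c ≠ 0 := (ENNReal.ofReal_pos.2 hc).ne'
  have h1 := io hC hI hX (fun T A => c * Real.sqrt (rad T) ≤ devO T A) (ENNReal.ofReal c) hc0
    (fun A t hA => by
      obtain ⟨T₁, -, h2⟩ := h A t hA
      exact ⟨T₁, fun T hT h3 => (h2 T hT h3).1⟩)
  have h2 := io hC hI hX (fun T A => c * Real.sqrt (rad T) ≤ devI T A) (ENNReal.ofReal c) hc0
    (fun A t hA => by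
      obtain ⟨T₁, -, h2⟩ := h A t hA
      exact ⟨T₁, fun T hT h3 => (h2 T hT h3).2⟩)
  filter_upwards [h1, h2] with ω h3 h4
  exact ⟨h3, h4⟩

end Pool.Agent.K1H80.BI
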